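import Pool.Agent.J4H64.MP.Def
import Pool.Agent.H520R2.NM

set_option autoImplicit false

/-! Formulas with few NOT gates. -/

namespace Pool.Agent.J4H64.MP

open Pool.Agent.H520R2 Pool.Agent.H520R2.NM

variable {I : Type}

theorem mprog_circuit {L : List ((I → Bool) → Bool)} (h : MProg (VB I) L) :
    ∃ C : NM.Circuit I L.length, C.size = L.length ∧ C.fanins = [] ∧
      ∀ f, Av (VB I) L f → ∃ w : NM.Wire I L.length, ∀ x, w.eval x (C.vals x) = f x := by
  have base : ∀ {n : ℕ} (C : NM.Circuit I n) (f : (I → Bool) → Bool), f ∈ VB I →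
      ∃ w : NM.Wire I n, ∀ x, w.eval x (C.vals x) = f x := by
    rintro n C f (⟨b, rfl⟩ | ⟨i, rfl⟩)
    · exact ⟨.const b, fun x => rfl⟩
    · exact ⟨.input i, fun x => rfl⟩
  have lift : ∀ {n : ℕ} (x : I → Bool) (v : Fin n → Bool) (b : Bool) (w : NM.Wire I n),
      ∃ w' : NM.Wire I (n + 1), ∀ (x : I → Bool) (v : Fin n → Bool) (b : Bool),
        w'.eval x (Fin.snoc (α := fun _ => Bool) v b) = w.eval x v := by
    intro n _ _ _ w
    cases w with
    | input i => exact ⟨.input i, fun _ _ _ => rfl⟩
    | const b => exact ⟨.const b, fun _ _ _ => rfl⟩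
    | gate j => exact ⟨.gate j.castSucc, fun x v b => by simp [NM.Wire.eval]⟩
  induction h with
  | nil =>
    refine ⟨.empty, rfl, rfl, ?_⟩
    rintro f (hf | hf)
    · exact base _ f hf
    · simp at hf
  | @and L f g hL hf hg ih =>
    obtain ⟨C, h1, h2, h3⟩ := ih
    obtain ⟨a, ha⟩ := h3 f hf
    obtain ⟨b, hb⟩ := h3 g hg
    refine ⟨C.and a b, by simp [NM.Circuit.size, h1], h2, ?_⟩
    rintro f' (hf' | hf')
    · exact base _ f' hf'
    · rcases List.mem_cons.mp hf' with rfl | hf'
      · refine ⟨.gate (Fin.last _), fun x => ?_⟩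
        show (Fin.snoc (α := fun _ => Bool) (C.vals x)
          (a.eval x (C.vals x) && b.eval x (C.vals x)) : Fin (L.length + 1) → Bool)
          (Fin.last _) = _
        rw [Fin.snoc_last, ha, hb]
      · obtain ⟨w, hw⟩ := h3 f' (Or.inr hf')
        obtain ⟨w', hw'⟩ := lift (fun _ => false) (fun _ => false) false w
        refine ⟨w', fun x => ?_⟩
        rw [← hw x]
        exact hw' _ _ _
  | @or L f g hL hf hg ih =>
    obtain ⟨C, h1, h2, h3⟩ := ih
    obtain ⟨a, ha⟩ := h3 f hf
    obtain ⟨b, hb⟩ := h3 g hg
    refine ⟨C.or a b, by simp [NM.Circuit.size, h1], h2, ?_⟩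
    rintro f' (hf' | hf')
    · exact base _ f' hf'
    · rcases List.mem_cons.mp hf' with rfl | hf'
      · refine ⟨.gate (Fin.last _), fun x => ?_⟩
        show (Fin.snoc (α := fun _ => Bool) (C.vals x)
          (a.eval x (C.vals x) || b.eval x (C.vals x)) : Fin (L.length + 1) → Bool)
          (Fin.last _) = _
        rw [Fin.snoc_last, ha, hb]
      · obtain ⟨w, hw⟩ := h3 f' (Or.inr hf')
        obtain ⟨w', hw'⟩ := lift (fun _ => false) (fun _ => false) false w
        refine ⟨w', fun x => ?_⟩
        rw [← hw x]
        exact hw' _ _ _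

/-- the property of the formula `F` with the program `L` -/
def Dc (F : Form I) (L : List ((I → Bool) → Bool)) : Prop :=
  (F.nots = 0 ∧ Av (VB I) L (fun x => F.eval x)) ∨
    (1 ≤ F.nots ∧ ∃ (α β : (I → Bool) → Bool) (gs : List ((I → Bool) → Bool))
      (h : List Bool → Bool), Av (VB I) L α ∧ Av (VB I) L β ∧ (∀ g ∈ gs, Av (VB I) L g) ∧
      gs.length + 4 ≤ 5 * F.nots ∧
      ∀ x, F.eval x = (α x || (β x && h (gs.map (fun g => g x)))))

theorem av_true (L : List ((I → Bool) → Bool)) (b : Bool) : Av (VB I) L (fun _ => b) :=
  Or.inl (Or.inl ⟨b, rfl⟩)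

theorem dec_aux (F : Form I) : ∃ L : List ((I → Bool) → Bool), MProg (VB I) L ∧
    L.length + 1 ≤ 2 * F.size ∧ Dc F L := by
  induction F with
  | inp i =>
    refine ⟨[], MProg.nil, by simp [Form.size], Or.inl ⟨rfl, Or.inl (Or.inr ⟨i, rfl⟩)⟩⟩
  | not F ih =>
    obtain ⟨L, hL, hlen, hd⟩ := ih
    refine ⟨L, hL, by simp only [Form.size]; omega, Or.inr ⟨by simp [Form.nots], ?_⟩⟩
    rcases hd with ⟨h0, hav⟩ | ⟨h1, α, β, gs, h, ha, hb, hgs, hl, hev⟩
    · refine ⟨fun _ => false, fun _ => true, [fun x => F.eval x], fun l => !(l.headD false),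
        av_true L _, av_true L _, ?_, by simp [Form.nots, h0], ?_⟩
      · intro g hg
        rw [List.mem_singleton] at hg
        rw [hg]
        exact hav
      · intro x
        simp [Form.eval]
    · refine ⟨fun _ => false, fun _ => true, α :: β :: gs,
        fun l => !(l.headD false || (l.tail.headD false && h l.tail.tail)),
        av_true L _, av_true L _, ?_, by simp only [List.length_cons, Form.nots]; omega, ?_⟩
      · intro g hg
        rcases List.mem_cons.mp hg with rfl | hg
        · exact ha
        · rcases List.mem_cons.mp hg with rfl | hg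
          · exact hb
          · exact hgs g hg
      · intro x
        simp [Form.eval, hev x]
  | and F G ihF ihG =>
    obtain ⟨L1, hL1, hlen1, hd1⟩ := ihF
    obtain ⟨L2, hL2, hlen2, hd2⟩ := ihG
    have hL := hL1.append hL2
    have m1 : ∀ {f}, Av (VB I) L1 f → Av (VB I) (L2 ++ L1) f := fun h => h.mono _
    have m2 : ∀ {f}, Av (VB I) L2 f → Av (VB I) (L2 ++ L1) f := by
      rintro f (h | h)
      · exact Or.inl h
      · exact Or.inr (List.mem_append_left _ h)
    rcases hd1 with ⟨h01, hav1⟩ | ⟨h11, α1, β1, gs1, h1, ha1, hb1, hgs1, hl1, hev1⟩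
    · rcases hd2 with ⟨h02, hav2⟩ | ⟨h12, α2, β2, gs2, h2, ha2, hb2, hgs2, hl2, hev2⟩
      · refine ⟨(fun x => F.eval x && G.eval x) :: (L2 ++ L1),
          MProg.and (f := fun x => F.eval x) (g := fun x => G.eval x) hL (m1 hav1) (m2 hav2), ?_,
          Or.inl ⟨by simp [Form.nots, h01, h02], Or.inr List.mem_cons_self⟩⟩
        simp only [List.length_cons, List.length_append, Form.size]; omega
      · refine ⟨(fun x => F.eval x && α2 x) :: (fun x => F.eval x && β2 x) :: (L2 ++ L1),
          MProg.and (f := fun x => F.eval x) (g := α2)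
            (MProg.and (f := fun x => F.eval x) (g := β2) hL (m1 hav1) (m2 hb2))
            ((m1 hav1).cons _) ((m2 ha2).cons _), ?_,
          Or.inr ⟨by simp only [Form.nots]; omega, _, _, gs2, h2, Or.inr List.mem_cons_self,
            Or.inr (List.mem_cons_of_mem _ List.mem_cons_self),
            fun g hg => ((m2 (hgs2 g hg)).cons _).cons _, by simp only [Form.nots]; omega, ?_⟩⟩
        · simp only [List.length_cons, List.length_append, Form.size]; omega
        · intro x
          simp only [Form.eval, hev2 x]
          cases F.eval x <;> simp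
    · rcases hd2 with ⟨h02, hav2⟩ | ⟨h12, α2, β2, gs2, h2, ha2, hb2, hgs2, hl2, hev2⟩
      · refine ⟨(fun x => G.eval x && α1 x) :: (fun x => G.eval x && β1 x) :: (L2 ++ L1),
          MProg.and (f := fun x => G.eval x) (g := α1)
            (MProg.and (f := fun x => G.eval x) (g := β1) hL (m2 hav2) (m1 hb1))
            ((m2 hav2).cons _) ((m1 ha1).cons _), ?_,
          Or.inr ⟨by simp only [Form.nots]; omega, _, _, gs1, h1, Or.inr List.mem_cons_self,
            Or.inr (List.mem_cons_of_mem _ List.mem_cons_self),
            fun g hg => ((m1 (hgs1 g hg)).cons _).cons _, by simp only [Form.nots]; omega, ?_⟩⟩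
        · simp only [List.length_cons, List.length_append, Form.size]; omega
        · intro x
          simp only [Form.eval, hev1 x]
          cases G.eval x <;> simp
      · refine ⟨L2 ++ L1, hL, by simp only [List.length_append, Form.size]; omega,
          Or.inr ⟨by simp only [Form.nots]; omega, fun _ => false, fun _ => true,
            α1 :: β1 :: α2 :: β2 :: (gs1 ++ gs2),
            fun l => (l.headD false || (l.tail.headD false &&
              h1 (l.tail.tail.tail.tail.take gs1.length))) &&
              (l.tail.tail.headD false || (l.tail.tail.tail.headD false &&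
              h2 (l.tail.tail.tail.tail.drop gs1.length))),
            av_true _ _, av_true _ _, ?_,
            by simp only [List.length_cons, List.length_append, Form.nots]; omega, ?_⟩⟩
        · intro g hg
          simp only [List.mem_cons, List.mem_append] at hg
          rcases hg with rfl | rfl | rfl | rfl | hg | hg
          · exact m1 ha1
          · exact m1 hb1
          · exact m2 ha2
          · exact m2 hb2
          · exact m1 (hgs1 g hg)
          · exact m2 (hgs2 g hg)
        · intro x
          simp [Form.eval, hev1 x, hev2 x]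
  | or F G ihF ihG =>
    obtain ⟨L1, hL1, hlen1, hd1⟩ := ihF
    obtain ⟨L2, hL2, hlen2, hd2⟩ := ihG
    have hL := hL1.append hL2
    have m1 : ∀ {f}, Av (VB I) L1 f → Av (VB I) (L2 ++ L1) f := fun h => h.mono _
    have m2 : ∀ {f}, Av (VB I) L2 f → Av (VB I) (L2 ++ L1) f := by
      rintro f (h | h)
      · exact Or.inl h
      · exact Or.inr (List.mem_append_left _ h)
    rcases hd1 with ⟨h01, hav1⟩ | ⟨h11, α1, β1, gs1, h1, ha1, hb1, hgs1, hl1, hev1⟩
    · rcases hd2 with ⟨h02, hav2⟩ | ⟨h12, α2, β2, gs2, h2, ha2, hb2, hgs2, hl2, hev2⟩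
      · refine ⟨(fun x => F.eval x || G.eval x) :: (L2 ++ L1),
          MProg.or (f := fun x => F.eval x) (g := fun x => G.eval x) hL (m1 hav1) (m2 hav2), ?_,
          Or.inl ⟨by simp [Form.nots, h01, h02], Or.inr List.mem_cons_self⟩⟩
        simp only [List.length_cons, List.length_append, Form.size]; omega
      · refine ⟨(fun x => F.eval x || α2 x) :: (L2 ++ L1),
          MProg.or (f := fun x => F.eval x) (g := α2) hL (m1 hav1) (m2 ha2), ?_,
          Or.inr ⟨by simp only [Form.nots]; omega, _, β2, gs2, h2, Or.inr List.mem_cons_self,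
            (m2 hb2).cons _,
            fun g hg => (m2 (hgs2 g hg)).cons _, by simp only [Form.nots]; omega, ?_⟩⟩
        · simp only [List.length_cons, List.length_append, Form.size]; omega
        · intro x
          simp only [Form.eval, hev2 x]
          cases F.eval x <;> simp
    · rcases hd2 with ⟨h02, hav2⟩ | ⟨h12, α2, β2, gs2, h2, ha2, hb2, hgs2, hl2, hev2⟩
      · refine ⟨(fun x => G.eval x || α1 x) :: (L2 ++ L1),
          MProg.or (f := fun x => G.eval x) (g := α1) hL (m2 hav2) (m1 ha1), ?_,
          Or.inr ⟨by simp only [Form.nots]; omega, _, β1, gs1, h1, Or.inr List.mem_cons_self,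
            (m1 hb1).cons _,
            fun g hg => (m1 (hgs1 g hg)).cons _, by simp only [Form.nots]; omega, ?_⟩⟩
        · simp only [List.length_cons, List.length_append, Form.size]; omega
        · intro x
          simp only [Form.eval, hev1 x]
          cases G.eval x <;> simp
      · refine ⟨L2 ++ L1, hL, by simp only [List.length_append, Form.size]; omega,
          Or.inr ⟨by simp only [Form.nots]; omega, fun _ => false, fun _ => true,
            α1 :: β1 :: α2 :: β2 :: (gs1 ++ gs2),
            fun l => (l.headD false || (l.tail.headD false &&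
              h1 (l.tail.tail.tail.tail.take gs1.length))) ||
              (l.tail.tail.headD false || (l.tail.tail.tail.headD false &&
              h2 (l.tail.tail.tail.tail.drop gs1.length))),
            av_true _ _, av_true _ _, ?_,
            by simp only [List.length_cons, List.length_append, Form.nots]; omega, ?_⟩⟩
        · intro g hg
          simp only [List.mem_cons, List.mem_append] at hg
          rcases hg with rfl | rfl | rfl | rfl | hg | hg
          · exact m1 ha1
          · exact m1 hb1
          · exact m2 ha2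
          · exact m2 hb2
          · exact m1 (hgs1 g hg)
          · exact m2 (hgs2 g hg)
        · intro x
          simp [Form.eval, hev1 x, hev2 x]

theorem nots_lt_size (F : Form I) : F.nots + 1 ≤ F.size := by
  induction F with
  | inp i => simp [Form.nots, Form.size]
  | and F G h1 h2 => simp only [Form.nots, Form.size]; omega
  | or F G h1 h2 => simp only [Form.nots, Form.size]; omega
  | not F h => simp only [Form.nots, Form.size]; omega

theorem t_DEC : S_DEC := by
  intro I F
  obtain ⟨L, hL, hlen, hd⟩ := dec_aux F
  obtain ⟨C, h1, h2, h3⟩ := mprog_circuit hL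
  have hns := nots_lt_size F
  -- a list of functions and `h`
  obtain ⟨gs, h, hav, hl, hev⟩ : ∃ (gs : List ((I → Bool) → Bool)) (h : List Bool → Bool),
      (∀ g ∈ gs, Av (VB I) L g) ∧ gs.length ≤ 5 * F.nots + 1 ∧
      ∀ x, F.eval x = h (gs.map (fun g => g x)) := by
    rcases hd with ⟨h0, hav⟩ | ⟨_, α, β, gs, h, ha, hb, hgs, hl, hev⟩
    · refine ⟨[fun x => F.eval x], fun l => l.headD false, ?_, by simp, fun x => by simp⟩
      intro g hg
      rw [List.mem_singleton] at hg
      rw [hg]
      exact hav
    · refine ⟨α :: β :: gs, fun l => l.headD false || (l.tail.headD false && h l.tail.tail),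
        ?_, by simp only [List.length_cons]; omega, fun x => by simp [hev x]⟩
      intro g hg
      rcases List.mem_cons.mp hg with rfl | hg
      · exact ha
      · rcases List.mem_cons.mp hg with rfl | hg
        · exact hb
        · exact hgs g hg
  choose w hw using fun j : Fin gs.length => h3 (gs.get j) (hav _ (List.get_mem gs j))
  refine ⟨L.length + 1, C.any gs.length 1 (fun v _ => !(h (List.ofFn v))) w,
    .gate (Fin.natAdd L.length 0), ?_, ?_, ?_⟩
  · intro x
    have e1 : (fun j => (w j).eval x (C.vals x)) = fun j => gs.get j x :=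
      funext fun j => hw j x
    show (Fin.append (C.vals x) ((fun (v : Fin gs.length → Bool) (_ : Fin 1) =>
      !(h (List.ofFn v))) (fun j => (w j).eval x (C.vals x)))) (Fin.natAdd L.length 0) = _
    rw [Fin.append_right, hev x, e1]
    show (!(h (List.ofFn fun j => gs.get j x))) = !(h (gs.map fun g => g x))
    congr 2
    apply List.ext_getElem
    · simp
    · intro j h1 h2
      simp
  · simp only [NM.Circuit.size, NM.Circuit.fanins, h1, h2, List.sum_cons, List.sum_nil]
    omega
  · simp only [NM.Circuit.fanins, h2, List.map_cons, List.map_nil, List.prod_cons, List.prod_nil]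
    omega

end Pool.Agent.J4H64.MP
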