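import Pool.Agent.J4H64.MO.Def

set_option autoImplicit false

/-! Formulas with few NOT gates for `k`-CNF-SAT: definitions and the statements of the pieces. -/

namespace Pool.Agent.J4H64.MP

open Finset Filter Pool.Agent.H560R2 Pool.Agent.H520R2 Pool.Agent.J4H64.MC Pool.Agent.J4H64.MN
open Pool.Agent.J4H64.MO

/-- Boolean formulas with AND, OR and NOT gates over the variables `I`. -/
inductive Form (I : Type) : Type
  | inp (i : I) : Form I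
  | and (F G : Form I) : Form I
  | or (F G : Form I) : Form I
  | not (F : Form I) : Form I

namespace Form

variable {I : Type}

/-- the value of the formula on the input `x` -/
def eval (x : I → Bool) : Form I → Bool
  | inp i => x i
  | and F G => F.eval x && G.eval x
  | or F G => F.eval x || G.eval x
  | not F => !(F.eval x)

/-- the size: the number of leaves plus the number of gates -/
def size : Form I → ℕ
  | inp _ => 1
  | and F G => F.size + G.size + 1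
  | or F G => F.size + G.size + 1
  | not F => F.size + 1

/-- the number of NOT gates -/
def nots : Form I → ℕ
  | inp _ => 0
  | and F G => F.nots + G.nots
  | or F G => F.nots + G.nots
  | not F => F.nots + 1

end Form

/-- piece DEC: a formula with `b` NOT gates is a function of at most `5 b + 1` monotone functions -/
def S_DEC : Prop :=
  ∀ (I : Type) (F : Form I),
    ∃ (n' : ℕ) (C : NM.Circuit I n') (out : NM.Wire I n'),
      (∀ x, out.eval x (C.vals x) = !(F.eval x)) ∧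
      C.size + C.fanins.sum ≤ 7 * F.size + 1 ∧
      (C.fanins.map (· + 1)).prod ≤ 5 * F.nots + 2

open Classical in
/-- the parametric statement for the circuits of `H520R2.NM` -/
def S_QPAR : Prop :=
  ∀ (k μ ν n e c B : ℕ), 3 ≤ k → 1 ≤ μ → 1 ≤ e → 1 ≤ c → 1 ≤ B → c * (2 * B) ≤ 2 ^ (k * ν) →
    8192 * (k * μ) ^ 2 * e * c + 1 ≤ 2 ^ (k * μ) →
    2 ^ (k * μ) + k * ν + 2 ^ (k * μ) * (k * (μ + ν)) * (2 * (k * μ) + 4) +
      2 ^ (k * μ) * (k * 2 ^ (μ + ν)) * (μ + ν + 1) ≤ n →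
    ∃ (Λ : Type) (_ : Fintype Λ) (_ : Nonempty Λ) (D : Λ → Clause n k → Bool),
      ∀ (n' : ℕ) (C : NM.Circuit (Clause n k) n') (out : NM.Wire (Clause n k) n'),
        4 * c * (C.size + C.fanins.sum + 1) ≤ 4 ^ e → (C.fanins.map (· + 1)).prod ≤ 2 * B →
        2 * c * (univ.filter (fun l => (¬ out.eval (D l) (C.vals (D l)) = true ↔
          Sat (D l)))).card < (c + 2) * Fintype.card Λ

/-- piece QASM -/
def S_QASM : Prop := S_ROWS → S_ADV2 → S_DUAL → S_SHIFT → S_ENC → S_QPAR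

/-- a family of devices: `size`, cost at most `B`, acceptance -/
structure Dev (k : ℕ) where
  T : ℕ → Type
  size : {n : ℕ} → T n → ℕ
  cost : {n : ℕ} → T n → ℕ → Prop
  acc : {n : ℕ} → T n → (Clause n k → Bool) → Prop

open Classical in
/-- the parametric statement for devices -/
def Dev.Par {k : ℕ} (V : Dev k) : Prop :=
  ∀ (μ ν n e c B : ℕ), 1 ≤ μ → 1 ≤ e → 1 ≤ c → 1 ≤ B → c * (2 * B) ≤ 2 ^ (k * ν) →
    8192 * (k * μ) ^ 2 * e * c + 1 ≤ 2 ^ (k * μ) →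
    2 ^ (k * μ) + k * ν + 2 ^ (k * μ) * (k * (μ + ν)) * (2 * (k * μ) + 4) +
      2 ^ (k * μ) * (k * 2 ^ (μ + ν)) * (μ + ν + 1) ≤ n →
    ∃ (Λ : Type) (_ : Fintype Λ) (_ : Nonempty Λ) (D : Λ → Clause n k → Bool),
      ∀ C : V.T n, V.cost C B →
        4 * c * ((V.size C + 1) * (V.size C + Fintype.card (Clause n k) + 2) + 1) ≤ 4 ^ e →
        2 * c * (univ.filter (fun l => (V.acc C (D l) ↔ Sat (D l)))).card <
          (c + 2) * Fintype.card Λ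

/-- the final statement for devices -/
def Dev.Fin {k : ℕ} (V : Dev k) : Prop :=
  ∀ γ : ℝ, 0 < γ → ∃ c : ℝ, 0 < c ∧ ∀ η : ℝ, η < k → ∀ᶠ n : ℕ in atTop,
    ∀ B : ℕ, 1 ≤ B → (B : ℝ) ≤ (n : ℝ) ^ η →
    ∃ (Λ : Type) (_ : Fintype Λ) (_ : Nonempty Λ) (D : Λ → Clause n k → Bool),
      ∀ C : V.T n, V.cost C B →
        (V.size C : ℝ) < (2 : ℝ) ^ (c * ((n : ℝ) ^ k / B) ^ (1 / ((k : ℝ) + 1)) /
          Real.log n ^ 3) →
        ({l | V.acc C (D l) ↔ Sat (D l)}.ncard : ℝ) < (1 / 2 + γ) * Fintype.card Λ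

/-- piece QPFIN -/
def S_QPFIN : Prop := ∀ k : ℕ, 3 ≤ k → ∀ V : Dev k, V.Par → V.Fin

/-- piece QDEV: circuits and formulas (`5 b + 2 ≤ 2 B`) -/
def dev (k : ℕ) : Dev k where
  T n := NCirc (Clause n k) ⊕ Form (Clause n k)
  size := fun C => Sum.elim (fun C => C.m) (fun F => F.size) C
  cost := fun C B => Sum.elim (fun C => C.NotCost B) (fun F => 5 * F.nots + 2 ≤ 2 * B) C
  acc := fun C x => Sum.elim (fun C => C.Acc x) (fun F => F.eval x = true) C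

/-- piece QDEV -/
def S_QDEV : Prop := S_QPAR → S_NBIN → S_DEC → ∀ k : ℕ, 3 ≤ k → (dev k).Par

/-- the final statement -/
def S_QFIN : Prop :=
  ∀ k : ℕ, 3 ≤ k → ∀ γ : ℝ, 0 < γ → ∃ c : ℝ, 0 < c ∧ ∀ η : ℝ, η < k → ∀ᶠ n : ℕ in atTop,
    ∀ B : ℕ, 1 ≤ B → (B : ℝ) ≤ (n : ℝ) ^ η →
    ∃ (Λ : Type) (_ : Fintype Λ) (_ : Nonempty Λ) (D : Λ → Clause n k → Bool),
      (∀ C : NCirc (Clause n k), C.NotCost B →
        (C.m : ℝ) < (2 : ℝ) ^ (c * ((n : ℝ) ^ k / B) ^ (1 / ((k : ℝ) + 1)) / Real.log n ^ 3) →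
        ({l | C.Acc (D l) ↔ Sat (D l)}.ncard : ℝ) < (1 / 2 + γ) * Fintype.card Λ) ∧
      ∀ F : Form (Clause n k), F.nots ≤ B →
        (F.size : ℝ) < (2 : ℝ) ^ (c * ((n : ℝ) ^ k / B) ^ (1 / ((k : ℝ) + 1)) / Real.log n ^ 3) →
        ({l | F.eval (D l) = true ↔ Sat (D l)}.ncard : ℝ) < (1 / 2 + γ) * Fintype.card Λ

/-- piece QRES (use `B' = 4 B` in `Dev.Fin`) -/
def S_QRES : Prop := (∀ k : ℕ, 3 ≤ k → (dev k).Fin) → S_QFIN

/-- the worst case -/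
def S_QCOR : Prop :=
  ∀ k : ℕ, 3 ≤ k → ∃ c : ℝ, 0 < c ∧ ∀ η : ℝ, η < k → ∀ᶠ n : ℕ in atTop,
    (∀ C : NCirc (Clause n k), (∀ x, C.Acc x ↔ Sat x) →
      ((2 : ℝ) ^ C.nots ≤ (n : ℝ) ^ η →
        (2 : ℝ) ^ (c * ((n : ℝ) ^ k / 2 ^ C.nots) ^ (1 / ((k : ℝ) + 1)) / Real.log n ^ 3) ≤
          C.m) ∧
      ∀ d : ℕ, C.Depth d → ((C.nots : ℝ) + 1) ^ d ≤ (n : ℝ) ^ η →
        (2 : ℝ) ^ (c * ((n : ℝ) ^ k / ((C.nots : ℝ) + 1) ^ d) ^ (1 / ((k : ℝ) + 1)) /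
          Real.log n ^ 3) ≤ C.m) ∧
    ∀ F : Form (Clause n k), (∀ x, F.eval x = true ↔ Sat x) → (F.nots : ℝ) ≤ (n : ℝ) ^ η →
      (2 : ℝ) ^ (c * ((n : ℝ) ^ k / (F.nots + 1)) ^ (1 / ((k : ℝ) + 1)) / Real.log n ^ 3) ≤
        F.size

/-- piece QCOR -/
def S_QCR : Prop := S_QFIN → S_COST → S_QCOR

end Pool.Agent.J4H64.MP
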