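import Pool.Agent.J4H64.MP.Def
import Pool.Agent.J4H64.MO.Pfin

set_option autoImplicit false

/-!
# Project MP, piece QPFIN: the asymptotic form for devices (after `Pool/Agent/J4H64/MO/Pfin.lean`)
-/

namespace Pool.Agent.J4H64.MP

open Finset Filter
open Pool.Agent.J4H64.MC Pool.Agent.J4H64.MN Pool.Agent.J4H46.MC Pool.Agent.J4H68.MN
open Pool.Agent.J4H64.MO

theorem t_QPFIN : S_QPFIN := by
  classical
  intro k hk V hPAR γ hγ
  have hk0 : (0 : ℝ) < k := by exact_mod_cast (by omega : 0 < k)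
  have hk1 : (3 : ℝ) ≤ k := by exact_mod_cast hk
  set r : ℝ := (k : ℝ) / (k + 1) with hr
  have hr0 : 0 < r := by rw [hr]; positivity
  have hr1 : r ≤ 1 := by rw [hr, div_le_one (by positivity)]; linarith
  obtain ⟨c, hc1, hcγ⟩ : ∃ c : ℕ, 1 ≤ c ∧ 1 / (c : ℝ) ≤ γ := by
    refine ⟨⌈1 / γ⌉₊ + 1, by omega, ?_⟩
    have h1 : 1 / γ ≤ ((⌈1 / γ⌉₊ + 1 : ℕ) : ℝ) := by
      push_cast
      linarith [Nat.le_ceil (1 / γ)]
    rw [one_div, inv_le_comm₀ (by positivity) hγ, ← one_div]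
    exact h1
  have hcR : (1 : ℝ) ≤ c := by exact_mod_cast hc1
  set A : ℝ := 30 * (k : ℝ) ^ 2 * 2 ^ (k + 1) with hA
  have hA0 : 1 ≤ A := by
    have : (1 : ℝ) ≤ 2 ^ (k + 1) := one_le_pow₀ (by norm_num)
    rw [hA]
    nlinarith
  set c' : ℝ := 1 / (A * (16384 * (k : ℝ) ^ 2 * c)) with hc'
  have hc'0 : 0 < c' := by rw [hc']; positivity
  set B0 : ℝ := A * (16384 * (k : ℝ) ^ 2 * c + 2) + 2 * (4 * k + 20 * c) / c' with hB0
  have hB1 : A * (16384 * (k : ℝ) ^ 2 * c + 2) ≤ B0 := by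
    rw [hB0]
    have : 0 ≤ 2 * (4 * (k : ℝ) + 20 * c) / c' := by positivity
    linarith
  have hB2 : 4 * (k : ℝ) + 20 * c ≤ c' / 2 * B0 := by
    have e1 : c' / 2 * (2 * (4 * (k : ℝ) + 20 * c) / c') = 4 * k + 20 * c := by field_simp
    have e2 : 0 ≤ c' / 2 * (A * (16384 * (k : ℝ) ^ 2 * c + 2)) := by positivity
    rw [hB0, mul_add, e1]
    linarith
  have hB00 : 0 ≤ B0 := by rw [hB0]; positivity
  set F : ℝ := 2 ^ (k + 1) * c with hF
  have hF1 : 1 ≤ F := by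
    have : (1 : ℝ) ≤ 2 ^ (k + 1) := one_le_pow₀ (by norm_num)
    rw [hF]
    nlinarith
  have hF0 : 0 < F := by linarith
  set ρ : ℝ := 1 / ((k : ℝ) + 1) with hρ
  have hρ0 : 0 < ρ := by rw [hρ]; positivity
  have hρ1 : ρ ≤ 1 := by rw [hρ, div_le_one (by positivity)]; linarith
  have hrρ : r = k * ρ := by rw [hr, hρ]; ring
  have hB01 : 1 ≤ B0 := by
    have h1 : (1 : ℝ) ≤ 16384 * (k : ℝ) ^ 2 * c + 2 := by
      have : (0 : ℝ) ≤ 16384 * (k : ℝ) ^ 2 * c := by positivity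
      linarith
    have h2 : 1 * 1 ≤ A * (16384 * (k : ℝ) ^ 2 * c + 2) :=
      mul_le_mul hA0 h1 (by norm_num) (by linarith)
    linarith
  refine ⟨c' / (2 * F), by positivity, fun η hη => ?_⟩
  have hη0 : 0 < ((k : ℝ) - η) * ρ := mul_pos (by linarith) hρ0
  filter_upwards [ev_log' (((k : ℝ) - η) * ρ) hη0 (F * B0), eventually_ge_atTop 4] with n hnB hn4
  intro B hB1' hBn
  have hnR : (4 : ℝ) ≤ n := by exact_mod_cast hn4
  have hn0 : (0 : ℝ) < n := by linarith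
  have hBR : (1 : ℝ) ≤ B := by exact_mod_cast hB1'
  set L : ℝ := Real.log n with hL
  have hL1 : 1 ≤ L := by
    rw [hL, Real.le_log_iff_exp_le (by linarith)]
    have := Real.exp_one_lt_d9
    linarith
  -- the number of instances
  have hex : ∃ ν : ℕ, c * (2 * B) ≤ 2 ^ (k * ν) := by
    refine ⟨c * (2 * B), ?_⟩
    calc c * (2 * B) ≤ 2 ^ (c * (2 * B)) := (Nat.lt_two_pow_self).le
      _ ≤ 2 ^ (k * (c * (2 * B))) :=
        Nat.pow_le_pow_right (by norm_num) (Nat.le_mul_of_pos_left _ (by omega))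
  obtain ⟨ν, hν1, hν2⟩ : ∃ ν : ℕ, c * (2 * B) ≤ 2 ^ (k * ν) ∧
      2 ^ (k * ν) ≤ 2 ^ k * (c * (2 * B)) := by
    refine ⟨Nat.find hex, Nat.find_spec hex, ?_⟩
    rcases Nat.eq_zero_or_pos (Nat.find hex) with h0 | h0
    · rw [h0, mul_zero, pow_zero]
      exact Nat.mul_pos (by positivity) (Nat.mul_pos (by omega) (by omega))
    · obtain ⟨j, hj⟩ : ∃ j, Nat.find hex = j + 1 := ⟨Nat.find hex - 1, by omega⟩
      have h1 := Nat.find_min hex (m := j) (by omega)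
      push Not at h1
      rw [hj, mul_add, mul_one, pow_add, mul_comm]
      exact Nat.mul_le_mul_left _ h1.le
  set x0 : ℝ := (n : ℝ) / 2 ^ ν with hx0
  have hV : (0 : ℝ) < 2 ^ ν := by positivity
  have hx00 : 0 < x0 := by rw [hx0]; positivity
  set y : ℝ := (n : ℝ) ^ k / B with hy
  have hyn : (n : ℝ) ^ ((k : ℝ) - η) ≤ y := by
    rw [hy, le_div_iff₀ (by linarith), Real.rpow_sub hn0, Real.rpow_natCast,
      div_mul_eq_mul_div, div_le_iff₀ (by positivity)]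
    gcongr
  have hy0 : 0 < y := lt_of_lt_of_le (by positivity) hyn
  have hxk : x0 ^ r = (x0 ^ k) ^ ρ := by
    rw [hrρ, Real.rpow_mul hx00.le, Real.rpow_natCast]
  have hyx : y ≤ x0 ^ k * F := by
    have h1 : ((2 : ℝ) ^ ν) ^ k ≤ F * B := by
      have h2 : ((2 ^ (k * ν) : ℕ) : ℝ) ≤ ((2 ^ k * (c * (2 * B)) : ℕ) : ℝ) := by
        exact_mod_cast hν2
      push_cast at h2
      calc ((2 : ℝ) ^ ν) ^ k = 2 ^ (k * ν) := by rw [← pow_mul, mul_comm]
        _ ≤ 2 ^ k * (c * (2 * B)) := h2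
        _ = F * B := by rw [hF, pow_succ]; ring
    rw [hy, hx0, div_pow, div_mul_eq_mul_div, div_le_div_iff₀ (by linarith) (by positivity)]
    calc (n : ℝ) ^ k * (2 ^ ν) ^ k ≤ (n : ℝ) ^ k * (F * B) := by gcongr
      _ = _ := by ring
  have hxy : y ^ ρ ≤ F * x0 ^ r := by
    calc y ^ ρ ≤ (x0 ^ k * F) ^ ρ := Real.rpow_le_rpow hy0.le hyx hρ0.le
      _ = (x0 ^ k) ^ ρ * F ^ ρ := Real.mul_rpow (by positivity) hF0.le
      _ = x0 ^ r * F ^ ρ := by rw [← hxk]
      _ ≤ x0 ^ r * F ^ (1 : ℝ) := by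
        gcongr
      _ = _ := by rw [Real.rpow_one, mul_comm]
  have hNB : B0 * L ^ 4 ≤ x0 ^ r := by
    have h1 : (n : ℝ) ^ (((k : ℝ) - η) * ρ) ≤ y ^ ρ := by
      rw [Real.rpow_mul hn0.le]
      exact Real.rpow_le_rpow (by positivity) hyn hρ0.le
    have h2 : F * (B0 * L ^ 4) ≤ F * x0 ^ r := by
      calc F * (B0 * L ^ 4) = F * B0 * L ^ 4 := by ring
        _ ≤ _ := hnB
        _ ≤ _ := h1
        _ ≤ _ := hxy
    exact le_of_mul_le_mul_left h2 hF0
  have hx1 : 1 ≤ x0 := by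
    by_contra hcon
    push Not at hcon
    have h1 : x0 ^ r < 1 := Real.rpow_lt_one hx00.le hcon hr0
    have h2 : 1 ≤ B0 * L ^ 4 := by
      have : 1 ≤ L ^ 4 := one_le_pow₀ hL1
      nlinarith
    linarith
  obtain ⟨μ, e, hμ1, he1, h1, h2, h3⟩ := core2 k c ν hk hc1 A hA n x0 hx0 hx1 hn4
    ((mul_le_mul_of_nonneg_right hB1 (by positivity)).trans hNB)
  obtain ⟨Λ, i1, i2, D, hD⟩ := hPAR μ ν n e c B hμ1 he1 hc1 hB1' hν1 h1 h2
  refine ⟨Λ, i1, i2, D, fun C hC hm => ?_⟩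
  have h4 := hD C hC ?_
  · -- the end
    have h5 : ({l | V.acc C (D l) ↔ Sat (D l)}.ncard) = (univ.filter (fun l => (V.acc C (D l) ↔ Sat (D l)))).card := by
      rw [← Set.ncard_coe_finset]
      congr 1
      ext l
      simp
    rw [h5]
    have h6 : 2 * (c : ℝ) * ((univ.filter (fun l => (V.acc C (D l) ↔ Sat (D l)))).card : ℝ) <
        (c + 2) * (Fintype.card Λ : ℝ) := by exact_mod_cast h4
    have h7 : (0 : ℝ) ≤ (Fintype.card Λ : ℝ) := Nat.cast_nonneg _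
    have h8 : ((univ.filter (fun l => (V.acc C (D l) ↔ Sat (D l)))).card : ℝ) <
        (1 / 2 + 1 / c) * (Fintype.card Λ : ℝ) := by
      have h9 : (1 / 2 + 1 / (c : ℝ)) * (Fintype.card Λ : ℝ) = ((c + 2) * (Fintype.card Λ : ℝ)) / (2 * c) := by
        field_simp
      rw [h9, lt_div_iff₀ (by positivity)]
      linarith
    refine h8.trans_le ?_
    gcongr
  · -- the size
    set X : ℝ := c' / (2 * F) * y ^ ρ / L ^ 3 with hX
    set Y : ℝ := c' / 2 * x0 ^ r / L ^ 3 with hY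
    have hL3 : 0 < L ^ 3 := by positivity
    have hXY : X ≤ Y := by
      rw [hX, hY]
      apply div_le_div_of_nonneg_right _ hL3.le
      calc c' / (2 * F) * y ^ ρ ≤ c' / (2 * F) * (F * x0 ^ r) := by gcongr
        _ = c' / 2 * x0 ^ r := by field_simp
    have hYe : 2 * Y ≤ e := by
      have : 2 * Y = c' * x0 ^ r / L ^ 3 := by rw [hY]; ring
      rw [this]
      exact h3
    have hYL : (4 * (k : ℝ) + 20 * c) * L ≤ Y := by
      rw [hY, le_div_iff₀ hL3]
      calc (4 * (k : ℝ) + 20 * c) * L * L ^ 3 = (4 * (k : ℝ) + 20 * c) * L ^ 4 := by ring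
        _ ≤ c' / 2 * B0 * L ^ 4 := by gcongr
        _ = c' / 2 * (B0 * L ^ 4) := by ring
        _ ≤ c' / 2 * x0 ^ r := by gcongr
    have hY20 : 20 * (c : ℝ) ≤ Y := by nlinarith
    have hY1 : (1 : ℝ) ≤ Y := by linarith
    have h2Y : 1 ≤ (2 : ℝ) ^ Y := Real.one_le_rpow (by norm_num) (by linarith)
    have hl2 : (0.5 : ℝ) ≤ Real.log 2 := by linarith [Real.log_two_gt_d9]
    -- the number of clauses
    have hQ : (Fintype.card (Clause n k) : ℝ) + 2 ≤ 2 ^ Y := by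
      have h1 : (Fintype.card (Clause n k) : ℝ) ≤ (2 * n + 1) ^ k := by exact_mod_cast card_clause n k
      have h2 : ((2 : ℝ) * n + 1) ^ k + 2 ≤ 2 * (n ^ 2 : ℝ) ^ k := by
        have h4 : ((2 : ℝ) * n + 1) ^ k ≤ (n ^ 2) ^ k := by
          apply pow_le_pow_left₀ (by positivity)
          nlinarith
        have h5 : (2 : ℝ) ≤ (n ^ 2) ^ k := by
          calc (2 : ℝ) ≤ n ^ 2 := by nlinarith
            _ = (n ^ 2) ^ 1 := (pow_one _).symm
            _ ≤ (n ^ 2) ^ k := pow_le_pow_right₀ (by nlinarith) (by omega)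
        linarith
      have h6 : ((n : ℝ) ^ 2) ^ k = Real.exp (2 * k * L) := by
        rw [← pow_mul, hL, mul_comm (2 * (k : ℝ)), Real.exp_mul, Real.exp_log (by linarith)]
        rw [show (2 * (k : ℝ)) = ((2 * k : ℕ) : ℝ) by push_cast; ring, Real.rpow_natCast]
      have h7 : (2 : ℝ) ^ Y = Real.exp (Real.log 2 * Y) := by
        rw [Real.rpow_def_of_pos (by norm_num)]
      have h8 : (2 : ℝ) ≤ Real.exp 1 := by
        have := Real.add_one_le_exp (1 : ℝ)
        linarith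
      have h9 : 2 * (n ^ 2 : ℝ) ^ k ≤ Real.exp (1 + 2 * k * L) := by
        rw [h6, Real.exp_add]
        gcongr
      rw [h7]
      refine (by linarith : (Fintype.card (Clause n k) : ℝ) + 2 ≤ Real.exp (1 + 2 * k * L)).trans ?_
      apply Real.exp_le_exp.mpr
      have h10 : 1 + 2 * k * L ≤ 0.5 * ((4 * (k : ℝ) + 20 * c) * L) := by nlinarith
      nlinarith
    have hm' : (V.size C : ℝ) < 2 ^ Y := hm.trans_le (Real.rpow_le_rpow_of_exponent_le (by norm_num) hXY)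
    have h10 : 4 * (c : ℝ) * ((V.size C + 1) * (V.size C + Fintype.card (Clause n k) + 2) + 1) ≤ 4 ^ (e : ℝ) := by
      have e1 : (4 : ℝ) ^ Y = 2 ^ Y * 2 ^ Y := by
        rw [show (4 : ℝ) = 2 * 2 by norm_num, Real.mul_rpow (by norm_num) (by norm_num)]
      have e2 : (4 : ℝ) ^ (2 * Y) ≤ 4 ^ (e : ℝ) := Real.rpow_le_rpow_of_exponent_le (by norm_num) hYe
      have e3 : (4 : ℝ) ^ (2 * Y) = 4 ^ Y * 4 ^ Y := by
        rw [← Real.rpow_add (by norm_num)]
        congr 1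
        ring
      have e4 : ((V.size C : ℝ) + 1) * (V.size C + Fintype.card (Clause n k) + 2) ≤ (2 * 2 ^ Y) * (2 * 2 ^ Y) := by
        have hm0 : (0 : ℝ) ≤ V.size C := Nat.cast_nonneg _
        have hq0 : (0 : ℝ) ≤ (Fintype.card (Clause n k) : ℝ) := Nat.cast_nonneg _
        apply mul_le_mul (by linarith) (by linarith) (by positivity) (by positivity)
      have e5 : ((V.size C : ℝ) + 1) * (V.size C + Fintype.card (Clause n k) + 2) + 1 ≤ 5 * 4 ^ Y := by
        rw [e1]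
        nlinarith
      have e6 : 20 * (c : ℝ) ≤ 4 ^ Y := by
        have : Y ≤ (4 : ℝ) ^ Y := by
          have h1 : (4 : ℝ) ^ Y = Real.exp (Real.log 4 * Y) := by
            rw [Real.rpow_def_of_pos (by norm_num)]
          rw [h1]
          have h2 := Real.add_one_le_exp (Real.log 4 * Y)
          have h3 : 1 ≤ Real.log 4 := by
            rw [show (4 : ℝ) = 2 ^ 2 by norm_num, Real.log_pow]
            push_cast
            linarith
          nlinarith
        linarith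
      have h4Y : (0 : ℝ) < 4 ^ Y := by positivity
      calc 4 * (c : ℝ) * ((V.size C + 1) * (V.size C + Fintype.card (Clause n k) + 2) + 1) ≤ 4 * c * (5 * 4 ^ Y) := by gcongr
        _ = 20 * c * 4 ^ Y := by ring
        _ ≤ 4 ^ Y * 4 ^ Y := by gcongr
        _ = 4 ^ (2 * Y) := e3.symm
        _ ≤ _ := e2
    rw [Real.rpow_natCast] at h10
    exact_mod_cast h10

end Pool.Agent.J4H64.MP
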